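import Pool.Agent.N207.HG.Stm2
import Pool.Agent.N34.HG.Irr

/-!
# HG/IR2: irreducibility with multiplicities of the eigenvalues (subtask 1520)

The decomposition and the twisting map are in `Pool.Agent.N34.HG.Irr` (helper34); the last three
statements are adapted from that file.
-/

set_option autoImplicit false

open Matrix Polynomial

namespace Pool.Agent.N803.HG.Ir2

open Pool.Agent.Y985.OR (Mat bl)
open Pool.Agent.N207.HG (S_IR2)
open Pool.Agent.N34.HG.Irr

section

variable {n : ℕ} {J : Mat n} {s : ℂ} {U : (Mat n)ˣ} {x : Fin n → ℂ} {c : ℂ}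

lemma charpoly_smul_comp (M : Mat n) (ζ : ℂ) :
    (ζ • M).charpoly.comp (C ζ * X) = C (ζ ^ n) * M.charpoly := by
  have h1 : (compRingHom (C ζ * X)) (charmatrix (ζ • M)).det =
      ((compRingHom (C ζ * X)).mapMatrix (charmatrix (ζ • M))).det := RingHom.map_det _ _
  have h2 : (compRingHom (C ζ * X)).mapMatrix (charmatrix (ζ • M)) = (C ζ) • charmatrix M := by
    ext1 i j
    rw [RingHom.mapMatrix_apply, Matrix.map_apply, Matrix.smul_apply, charmatrix_apply,
      charmatrix_apply, coe_compRingHom_apply, Matrix.smul_apply, smul_eq_mul, smul_eq_mul,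
      sub_comp, C_comp, C_mul, mul_sub]
    congr 1
    by_cases hij : i = j
    · subst hij
      rw [Matrix.diagonal_apply_eq, X_comp]
    · rw [Matrix.diagonal_apply_ne _ hij, zero_comp, mul_zero]
  rw [h2, Matrix.det_smul, Fintype.card_fin, ← C_pow, coe_compRingHom_apply] at h1
  exact h1

lemma mult_le (M : Mat n) {ζ : ℂ} (hζ : ζ ≠ 0) (m : ℂ) :
    (ζ • M).charpoly.rootMultiplicity (ζ * m) ≤ M.charpoly.rootMultiplicity m := by
  rw [le_rootMultiplicity_iff (Matrix.charpoly_monic M).ne_zero]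
  have h1 := pow_rootMultiplicity_dvd (ζ • M).charpoly (ζ * m)
  obtain ⟨q, hq⟩ := h1
  have h2 := congrArg (fun p => p.comp (C ζ * X)) hq
  rw [charpoly_smul_comp, mul_comp, pow_comp, sub_comp, X_comp, C_comp, C_mul, ← mul_sub,
    mul_pow] at h2
  have h3 : IsUnit (C (ζ ^ n) : ℂ[X]) := isUnit_C.2 (isUnit_iff_ne_zero.2 (pow_ne_zero _ hζ))
  rw [← h3.dvd_mul_left, h2, mul_assoc]
  exact Dvd.dvd.mul_left (Dvd.intro _ rfl) _

lemma mult_smul (M : Mat n) {ζ : ℂ} (hζ : ζ ≠ 0) (m : ℂ) :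
    (ζ • M).charpoly.rootMultiplicity (ζ * m) = M.charpoly.rootMultiplicity m := by
  apply le_antisymm (mult_le M hζ m)
  have h1 := mult_le (ζ • M) (inv_ne_zero hζ) (ζ * m)
  rw [smul_smul, inv_mul_cancel₀ hζ, one_smul, ← mul_assoc, inv_mul_cancel₀ hζ, one_mul] at h1
  exact h1

/-- a matrix conjugate to a multiple of itself -/
lemma mult_twist {M : Mat n} {ζ : ℂ} (hζ : ζ ≠ 0) (D : (Fin n → ℂ) →ₗ[ℂ] (Fin n → ℂ))
    (hD : ∀ z, D z = 0 → z = 0) (h : ∀ z, D (M *ᵥ z) = ζ • (M *ᵥ D z)) (m : ℂ) :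
    M.charpoly.rootMultiplicity m = M.charpoly.rootMultiplicity (m * ζ) := by
  set B : Mat n := LinearMap.toMatrix' D with hB
  have hBv : ∀ z, B *ᵥ z = D z := fun z => LinearMap.toMatrix'_mulVec D z
  have hdet : B.det ≠ 0 := by
    intro h0
    obtain ⟨v, hv0, hv⟩ := Matrix.exists_mulVec_eq_zero_iff.2 h0
    exact hv0 (hD v (by rw [← hBv, hv]))
  have hBM : B * M = ζ • (M * B) := by
    apply Matrix.ext_of_mulVec_single
    intro i
    rw [← mulVec_mulVec, hBv, h, smul_mulVec, ← mulVec_mulVec, hBv]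
  have h1 : (ζ • M).charpoly = M.charpoly := by
    have h2 : ζ • M = B * M * B⁻¹ := by
      rw [hBM, smul_mul_assoc, Matrix.mul_assoc, Matrix.mul_nonsing_inv _
        (isUnit_iff_ne_zero.2 hdet), Matrix.mul_one]
    rw [h2, Matrix.charpoly_mul_comm, ← Matrix.mul_assoc, Matrix.nonsing_inv_mul _
      (isUnit_iff_ne_zero.2 hdet), Matrix.one_mul]
  rw [← mult_smul M hζ m, h1, mul_comm]

/-- the twist commutes with the operators up to the root of unity -/
lemma no_period
    (hJp : ∀ y : Fin n → ℂ, (∀ k, bb J y (vv U x k) = 0) → y = 0)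
    (htop : ∀ W : Submodule ℂ (Fin n → ℂ), (∀ k, vv U x k ∈ W) → W = ⊤) {g : Mat n}
    (hg : ∀ y, g *ᵥ y = y + (c * bb J y x) • x) {d : ℕ} (hd : 2 ≤ d)
    (hort : ∀ k l : ℤ, ¬ (d : ℤ) ∣ k - l → bb J (vv U x k) (vv U x l) = 0)
    (h : (∃ m : ℂ, (U : Mat n).charpoly.rootMultiplicity m ≠
      (U : Mat n).charpoly.rootMultiplicity (m * Complex.exp (2 * Real.pi * Complex.I / d))) ∨
    (∃ m : ℂ, (g * (U : Mat n)).charpoly.rootMultiplicity m ≠
      (g * (U : Mat n)).charpoly.rootMultiplicity (m * Complex.exp (2 * Real.pi * Complex.I / d)))) :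
    False := by
  set ζ : ℂ := Complex.exp (2 * Real.pi * Complex.I / d) with hζd
  have hζ0 : ζ ≠ 0 := Complex.exp_ne_zero _
  have hd0 : (d : ℂ) ≠ 0 := by exact_mod_cast (by omega : d ≠ 0)
  have hζpow : ζ ^ d = 1 := by
    rw [hζd, ← Complex.exp_nat_mul, mul_div_cancel₀ _ hd0, Complex.exp_two_pi_mul_I]
  have hζdvd : ∀ k : ℤ, (d : ℤ) ∣ k → ζ ^ k = 1 := by
    rintro k ⟨j, rfl⟩
    rw [_root_.zpow_mul, zpow_natCast, hζpow, _root_.one_zpow]
  have hζeq : ∀ k l : ℤ, (d : ℤ) ∣ k - l → ζ ^ k = ζ ^ l := by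
    intro k l hkl
    have h1 := hζdvd _ hkl
    rw [zpow_sub₀ hζ0, div_eq_one_iff_eq (zpow_ne_zero l hζ0)] at h1
    exact h1
  obtain ⟨D, hD, hDinj⟩ := exists_D (J := J) (U := U) (x := x) hζ0 hJp htop
    (fun k l hkl => hort k l fun h => hkl (hζeq k l h))
  have hDT : ∀ z, D ((U : Mat n) *ᵥ z) = ζ • ((U : Mat n) *ᵥ D z) := by
    have h1 : (⊤ : Submodule ℂ (Fin n → ℂ)) ≤ LinearMap.eqLocus (D ∘ₗ Matrix.mulVecLin (U : Mat n))
        (ζ • (Matrix.mulVecLin (U : Mat n) ∘ₗ D)) := by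
      rw [← htop (LinearMap.eqLocus (D ∘ₗ Matrix.mulVecLin (U : Mat n))
        (ζ • (Matrix.mulVecLin (U : Mat n) ∘ₗ D)))]
      intro k
      rw [LinearMap.mem_eqLocus, LinearMap.comp_apply, LinearMap.smul_apply, LinearMap.comp_apply,
        hD, map_smul, mulVecLin_apply]
      have h2 := mul_vv (U := U) (x := x) 1 k
      rw [_root_.zpow_one] at h2
      rw [h2, hD, smul_smul, zpow_add₀ hζ0, zpow_one]
    intro z
    have h2 := h1 (Submodule.mem_top : z ∈ ⊤)
    rw [LinearMap.mem_eqLocus, LinearMap.comp_apply, LinearMap.smul_apply, LinearMap.comp_apply,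
      mulVecLin_apply, mulVecLin_apply] at h2
    exact h2
  have hDg : ∀ z, D (g *ᵥ z) = g *ᵥ D z := by
    have h1 : (⊤ : Submodule ℂ (Fin n → ℂ)) ≤ LinearMap.eqLocus (D ∘ₗ Matrix.mulVecLin g)
        (Matrix.mulVecLin g ∘ₗ D) := by
      rw [← htop (LinearMap.eqLocus (D ∘ₗ Matrix.mulVecLin g) (Matrix.mulVecLin g ∘ₗ D))]
      intro k
      rw [LinearMap.mem_eqLocus, LinearMap.comp_apply, LinearMap.comp_apply, mulVecLin_apply,
        mulVecLin_apply, hD, mulVec_smul, hg, map_add, map_smul, hD]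
      have hDx : D x = x := by
        have := hD 0
        rw [vv_zero, _root_.zpow_zero, one_smul] at this
        exact this
      rw [hDx, smul_add, smul_smul]
      congr 1
      by_cases hk : (d : ℤ) ∣ k
      · rw [hζdvd k hk, one_mul]
      · have h3 := hort k 0 (by rw [sub_zero]; exact hk)
        rw [vv_zero] at h3
        rw [h3, mul_zero, mul_zero]
    intro z
    have h2 := h1 (Submodule.mem_top : z ∈ ⊤)
    rw [LinearMap.mem_eqLocus, LinearMap.comp_apply, LinearMap.comp_apply, mulVecLin_apply,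
      mulVecLin_apply] at h2
    exact h2
  rcases h with ⟨m, h⟩ | ⟨m, h⟩
  · exact h (mult_twist hζ0 D hDinj hDT m)
  · refine h (mult_twist hζ0 D hDinj (fun z => ?_) m)
    rw [← mulVec_mulVec, hDg, hDT, mulVec_smul, mulVec_mulVec]

lemma irr_aux (hJ : J.det ≠ 0) (hs : ∀ u w, bb J u w = s * bb J w u)
    (hU : (U : Mat n)ᵀ * J * (U : Mat n) = J) (hx : x ≠ 0) (hc : c ≠ 0) {g : Mat n}
    (hg : ∀ y, g *ᵥ y = y + (c * bb J y x) • x)
    (he : ∀ (e : Fin n → ℂ) (m : ℂ), e ≠ 0 → (U : Mat n) *ᵥ e = m • e → bb J x e ≠ 0)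
    (h : ∀ d : ℕ, 2 ≤ d →
    (∃ m : ℂ, (U : Mat n).charpoly.rootMultiplicity m ≠
      (U : Mat n).charpoly.rootMultiplicity (m * Complex.exp (2 * Real.pi * Complex.I / d))) ∨
    (∃ m : ℂ, (g * (U : Mat n)).charpoly.rootMultiplicity m ≠
      (g * (U : Mat n)).charpoly.rootMultiplicity (m * Complex.exp (2 * Real.pi * Complex.I / d))))
    {W : Submodule ℂ (Fin n → ℂ)} (hW : Inv J U x c W) : W = ⊥ ∨ W = ⊤ := by
  have hJp : ∀ y : Fin n → ℂ, (∀ k, bb J y (vv U x k) = 0) → y = 0 :=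
    fun y hy => perp_zero hU hs he hy
  have htop : ∀ W : Submodule ℂ (Fin n → ℂ), (∀ k, vv U x k ∈ W) → W = ⊤ :=
    fun W hW => span_top hJ hJp hW
  obtain ⟨a, ha⟩ := Int.subgroup_cyclic (HH hU x c)
  have hmem : ∀ k, k ∈ HH hU x c ↔ ((a.natAbs : ℕ) : ℤ) ∣ k := by
    intro k
    rw [ha, AddSubgroup.mem_closure_singleton, Int.natAbs_dvd]
    constructor
    · rintro ⟨z, rfl⟩
      exact ⟨z, by rw [smul_eq_mul, mul_comm]⟩
    · rintro ⟨z, rfl⟩
      exact ⟨z, by rw [smul_eq_mul, mul_comm]⟩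
  have hort : ∀ k l : ℤ, ¬ ((a.natAbs : ℕ) : ℤ) ∣ k - l → bb J (vv U x k) (vv U x l) = 0 := by
    intro k l hkl
    apply ortho hs hc
    rw [rel_iff hU, hmem]
    exact hkl
  rcases Nat.lt_or_ge a.natAbs 2 with h2 | h2
  · rcases Nat.lt_or_ge a.natAbs 1 with h1 | h1
    · -- all translates are orthogonal
      exfalso
      have h0 : a.natAbs = 0 := by omega
      have hort' : ∀ k l : ℤ, k ≠ l → bb J (vv U x k) (vv U x l) = 0 := by
        intro k l hkl
        apply hort k l
        rw [h0]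
        intro hdv
        rw [Nat.cast_zero, zero_dvd_iff] at hdv
        exact hkl (by omega)
      have hnz : ∀ k : ℤ, bb J (vv U x k) (vv U x k) ≠ 0 := by
        intro k hk
        have h3 : vv U x k = 0 := by
          apply hJp
          intro l
          rcases eq_or_ne k l with rfl | hkl
          · exact hk
          · exact hort' k l hkl
        apply hx
        have h4 := mul_vv (U := U) (x := x) (-k) k
        rw [h3, mulVec_zero, neg_add_cancel, vv_zero] at h4
        exact h4.symm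
      have hli : LinearIndependent ℂ (vv U x) := by
        rw [linearIndependent_iff']
        intro t f hf k hk
        have h3 : bb J (∑ i ∈ t, f i • vv U x i) (vv U x k) = f k * bb J (vv U x k) (vv U x k) := by
          rw [map_sum, LinearMap.sum_apply, Finset.sum_eq_single k]
          · rw [map_smul, LinearMap.smul_apply, smul_eq_mul]
          · intro i _ hik
            rw [map_smul, LinearMap.smul_apply, hort' i k hik, smul_zero]
          · exact fun h => absurd hk h
        rw [hf, map_zero, LinearMap.zero_apply] at h3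
        exact (mul_eq_zero.1 h3.symm).resolve_right (hnz k)
      have := hli.finite
      exact not_finite ℤ
    · -- all indices are equivalent
      have h0 : a.natAbs = 1 := by omega
      have hall : ∀ k : ℤ, Rel J U x c k 0 := by
        intro k
        rw [rel_iff hU, hmem, h0]
        simp
      by_cases hW0 : vv U x 0 ∈ W
      · right
        exact htop W fun k => (hall k W hW).2 hW0
      · left
        rw [Submodule.eq_bot_iff]
        intro y hy
        apply hJp
        intro k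
        rcases inv_or hc hW k with h3 | h3
        · exact absurd ((hall k W hW).1 h3) hW0
        · exact h3 y hy
  · exact (no_period hJp htop hg h2 hort (h _ h2)).elim

end

theorem ir2 : S_IR2 := by
  intro n J T Ti g x c hsym hJ hT hTi hx hc hgd _ he h W hW
  have hTi' : Ti * T = 1 := mul_eq_one_comm.1 hTi
  let U : (Mat n)ˣ := ⟨T, Ti, hTi, hTi'⟩
  have hUT : (U : Mat n) = T := rfl
  have hUTi : ((U⁻¹ : (Mat n)ˣ) : Mat n) = Ti := rfl
  obtain ⟨s, hs⟩ : ∃ s : ℂ, ∀ u w, bb J u w = s * bb J w u := by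
    have h1 : ∀ u w : Fin n → ℂ, u ⬝ᵥ (J *ᵥ w) = w ⬝ᵥ (Jᵀ *ᵥ u) := by
      intro u w
      rw [dotProduct_mulVec, dotProduct_comm, mulVec_transpose]
    rcases hsym with h2 | h2
    · refine ⟨1, fun u w => ?_⟩
      rw [bb_apply, bb_apply, one_mul]
      unfold bl
      rw [h1, h2]
    · refine ⟨-1, fun u w => ?_⟩
      rw [bb_apply, bb_apply]
      unfold bl
      rw [h1, h2, neg_mulVec, dotProduct_neg, neg_one_mul]
  have hg : ∀ y, g *ᵥ y = y + (c * bb J y x) • x := by
    intro y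
    rw [hgd, add_mulVec, one_mulVec, smul_mulVec, bb_apply]
    congr 1
    funext i
    unfold bl
    rw [dotProduct_comm y]
    simp only [Pi.smul_apply, smul_eq_mul, mulVec, dotProduct, vecMulVec_apply]
    rw [Finset.mul_sum, Finset.mul_sum, Finset.sum_mul]
    apply Finset.sum_congr rfl
    intro j _
    ring
  have hU : (U : Mat n)ᵀ * J * (U : Mat n) = J := hT
  have key : ∀ (k : ℤ) (y : Fin n → ℂ), y ∈ W →
      (((U ^ k : (Mat n)ˣ) : Mat n) * g * ((U ^ (-k) : (Mat n)ˣ) : Mat n)) *ᵥ y ∈ W := by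
    intro k y hy
    rcases Int.eq_nat_or_neg k with ⟨j, rfl | rfl⟩
    · have h1 := (hW j).1 y hy
      rw [_root_.zpow_neg, zpow_natCast, ← inv_pow, Units.val_pow_eq_pow_val, Units.val_pow_eq_pow_val]
      exact h1
    · have h1 := (hW j).2 y hy
      rw [neg_neg, _root_.zpow_neg, zpow_natCast, ← inv_pow, Units.val_pow_eq_pow_val,
        Units.val_pow_eq_pow_val]
      exact h1
  refine irr_aux (U := U) (s := s) hJ hs hU hx hc hg ?_ h ?_
  · intro e m he0 hem
    rw [bb_apply]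
    exact he e m he0 hem
  · intro k y hy
    have h1 := key k y hy
    rw [← mulVec_mulVec, ← mulVec_mulVec, hg, mulVec_add, mulVec_smul, inv_mulVec_cancel,
      ← iso_zpow hU k, inv_mulVec_cancel] at h1
    exact h1

end Pool.Agent.N803.HG.Ir2
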